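import Mathlib
set_option autoImplicit false

/-!
# MP_270b6b_co: a bipartite graph plus a graph of maximum degree below `n` - the answer is no

KEPT, NOT HANDED IN: the disproof is known (O. Pikhurko, Size Ramsey numbers of stars versus
3-chromatic graphs, Combinatorica 21 (2001)), found in review.

The question (Erdos, Faudree and others): does every graph with `m ≥ 2 n + 2` vertices and
`(2 n + 1).choose 2 - n.choose 2 - 1` edges (`n ≥ 3`) split into a bipartite graph and a graph of
maximum degree at most `n - 1`?  NO, for every `n ≥ 5` and every `m ≥ 3 n + 1`.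

Construction.  Let `a + b = n`, `a = n / 2`.  Take a hub joined to `3 n` vertices, which form two
disjoint blocks with `a + n` and `b + n` vertices; in the first block `a` centres are joined to all
other vertices of the block, in the second block `b` centres.  The number of edges is
`3 n + n ^ 2 + a.choose 2 + b.choose 2`, at most `e(n)` for `n ≥ 5` (equality for `n = 5`,
44 edges, 16 vertices).  In a partition in which the hub has at most `n - 1 = a + b - 1`
neighbours in its own part `A`, `A` contains at most `a - 1` vertices of the first block or at most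
`b - 1` vertices of the second; then some centre of this block is in the other part, together with
at least `n` of its neighbours.  Add edges to reach exactly `e(n)`.
-/

namespace Pool.Agent.Run7.h62.Kept.TwoBlocks

/-- The property of the problem: the edges of `G` are covered by a bipartite graph `B` and a graph
`D` all of whose degrees are at most `n - 1`. -/
def HasP (n : ℕ) {V : Type} (G : SimpleGraph V) : Prop :=
  ∃ B D : SimpleGraph V, B.Colorable 2 ∧ (∀ v, (D.neighborSet v).ncard ≤ n - 1) ∧ G = B ⊔ D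

/-- every partition has a vertex with at least `n` neighbours in its own part -/
def Bad (n : ℕ) {m : ℕ} (G : SimpleGraph (Fin m)) : Prop :=
  ∀ c : Fin m → Fin 2, ∃ v, n ≤ ({u | G.Adj v u ∧ c u = c v} : Set (Fin m)).ncard

theorem not_hasP {n m : ℕ} (hn : 1 ≤ n) {G : SimpleGraph (Fin m)} (h : Bad n G) :
    ¬ HasP n G := by
  rintro ⟨B, D, ⟨C⟩, hD, rfl⟩
  obtain ⟨v, hv⟩ := h C
  have hsub : ({u | (B ⊔ D).Adj v u ∧ C u = C v} : Set (Fin m)) ⊆ D.neighborSet v := by
    rintro u ⟨hu, hc⟩
    rw [SimpleGraph.sup_adj] at hu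
    rcases hu with hu | hu
    · exact absurd hc.symm (C.valid hu)
    · exact hu
  have := Set.ncard_le_ncard hsub (Set.toFinite _)
  have := hD v
  omega

theorem Bad.mono {n m : ℕ} {G H : SimpleGraph (Fin m)} (h : Bad n G) (hGH : G ≤ H) :
    Bad n H := by
  intro c
  obtain ⟨v, hv⟩ := h c
  refine ⟨v, hv.trans (Set.ncard_le_ncard ?_ (Set.toFinite _))⟩
  rintro u ⟨hu, hc⟩
  exact ⟨hGH hu, hc⟩

/-- block: a clique of `k` centres joined to everything in `W`, where `|W| = k + n`;
if fewer than `k` vertices of `W` have the colour `x`, then some centre is bad. -/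
theorem block {n m k : ℕ} (G : SimpleGraph (Fin m)) (W K : Finset (Fin m)) (hKW : K ⊆ W)
    (hK : K.card = k) (hW : W.card = k + n)
    (hadj : ∀ v ∈ K, ∀ u ∈ W, u ≠ v → G.Adj v u) (c : Fin m → Fin 2) (x : Fin 2)
    (hx : (W.filter (fun u => c u = x)).card < k) :
    ∃ v, n ≤ ({u | G.Adj v u ∧ c u = c v} : Set (Fin m)).ncard := by
  -- a centre of the other colour
  have h1 : ∃ v ∈ K, c v ≠ x := by
    by_contra hcon
    push Not at hcon
    have : K ⊆ W.filter (fun u => c u = x) := fun v hv =>
      Finset.mem_filter.2 ⟨hKW hv, hcon v hv⟩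
    have := Finset.card_le_card this
    omega
  obtain ⟨v, hvK, hvx⟩ := h1
  refine ⟨v, ?_⟩
  have h2 : (((W.filter (fun u => ¬ c u = x)).erase v : Finset (Fin m)) : Set (Fin m))
      ⊆ {u | G.Adj v u ∧ c u = c v} := by
    intro u hu
    rw [Finset.mem_coe, Finset.mem_erase, Finset.mem_filter] at hu
    obtain ⟨huv, huW, hux⟩ := hu
    refine ⟨hadj v hvK u huW huv, ?_⟩
    omega
  have h3 := Set.ncard_le_ncard h2 (Set.toFinite _)
  rw [Set.ncard_coe_finset] at h3
  have h4 : v ∈ W.filter (fun u => ¬ c u = x) := Finset.mem_filter.2 ⟨hKW hvK, hvx⟩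
  rw [Finset.card_erase_of_mem h4] at h3
  have h5 := Finset.card_filter_add_card_filter_not (s := W) (fun u => c u = x)
  omega

/-- the adjacency of the construction for `i < j` -/
def R (n a i j : ℕ) : Prop :=
  (i = 0 ∧ 1 ≤ j ∧ j ≤ 3 * n) ∨ (1 ≤ i ∧ i ≤ a ∧ j ≤ a + n) ∨
    (n + a + 1 ≤ i ∧ i ≤ 2 * n ∧ j ≤ 3 * n)

def G0 (n a m : ℕ) : SimpleGraph (Fin m) :=
  SimpleGraph.fromRel (fun x y : Fin m => x.val < y.val ∧ R n a x.val y.val)

theorem G0_adj {n a m : ℕ} {x y : Fin m} :
    (G0 n a m).Adj x y ↔ (x.val < y.val ∧ R n a x.val y.val) ∨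
      (y.val < x.val ∧ R n a y.val x.val) := by
  unfold G0
  rw [SimpleGraph.fromRel_adj]
  constructor
  · rintro ⟨_, h⟩
    exact h
  · intro h
    refine ⟨?_, h⟩
    rintro rfl
    rcases h with h | h <;> exact absurd h.1 (lt_irrefl _)

theorem bad_G0 {n a m : ℕ} (ha : 1 ≤ a) (han : a < n) (hm : 3 * n + 1 ≤ m) :
    Bad n (G0 n a m) := by
  intro c
  let hub : Fin m := ⟨0, by omega⟩
  let p1 : Fin m := ⟨a, by omega⟩
  let p2 : Fin m := ⟨a + n, by omega⟩
  let p3 : Fin m := ⟨2 * n, by omega⟩
  let p4 : Fin m := ⟨3 * n, by omega⟩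
  by_cases hbig : n ≤ ((Finset.Ioc hub p4).filter (fun u => c u = c hub)).card
  · refine ⟨hub, hbig.trans ?_⟩
    rw [← Set.ncard_coe_finset]
    refine Set.ncard_le_ncard ?_ (Set.toFinite _)
    intro u hu
    rw [Finset.mem_coe, Finset.mem_filter, Finset.mem_Ioc] at hu
    obtain ⟨⟨h1, h2⟩, h3⟩ := hu
    refine ⟨?_, h3⟩
    rw [G0_adj]
    left
    have h1' : (0:ℕ) < u.val := h1
    have h2' : u.val ≤ 3 * n := h2
    exact ⟨h1, Or.inl ⟨rfl, h1', h2'⟩⟩
  · push Not at hbig
    have hsplit : ((Finset.Ioc hub p2).filter (fun u => c u = c hub)).card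
        + ((Finset.Ioc p2 p4).filter (fun u => c u = c hub)).card
        ≤ ((Finset.Ioc hub p4).filter (fun u => c u = c hub)).card := by
      rw [← Finset.card_union_of_disjoint]
      · apply Finset.card_le_card
        intro u hu
        rw [Finset.mem_union, Finset.mem_filter, Finset.mem_filter, Finset.mem_Ioc,
          Finset.mem_Ioc] at hu
        rw [Finset.mem_filter, Finset.mem_Ioc]
        have e2 : p2 ≤ p4 := by
          change a + n ≤ 3 * n
          omega
        have e0 : hub ≤ p2 := by
          change 0 ≤ a + n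
          omega
        rcases hu with ⟨⟨h1, h2⟩, h3⟩ | ⟨⟨h1, h2⟩, h3⟩
        · exact ⟨⟨h1, h2.trans e2⟩, h3⟩
        · exact ⟨⟨e0.trans_lt h1, h2⟩, h3⟩
      · rw [Finset.disjoint_left]
        intro u hu hu2
        rw [Finset.mem_filter, Finset.mem_Ioc] at hu hu2
        exact absurd hu.1.2 (not_le.2 hu2.1.1)
    have hcase : ((Finset.Ioc hub p2).filter (fun u => c u = c hub)).card < a ∨
        ((Finset.Ioc p2 p4).filter (fun u => c u = c hub)).card < n - a := by omega
    rcases hcase with h | h
    · refine block (k := a) (G0 n a m) (Finset.Ioc hub p2) (Finset.Ioc hub p1) ?_ ?_ ?_ ?_ c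
        (c hub) h
      · intro u hu
        rw [Finset.mem_Ioc] at hu ⊢
        refine ⟨hu.1, hu.2.trans ?_⟩
        change a ≤ a + n
        omega
      · rw [Fin.card_Ioc]
        change a - 0 = a
        omega
      · rw [Fin.card_Ioc]
        change a + n - 0 = a + n
        omega
      · intro v hv u hu huv
        rw [Finset.mem_Ioc] at hv hu
        have hv1 : 0 < v.val := hv.1
        have hv2 : v.val ≤ a := hv.2
        have hu1 : 0 < u.val := hu.1
        have hu2 : u.val ≤ a + n := hu.2
        have hne : u.val ≠ v.val := fun h => huv (Fin.ext h)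
        rw [G0_adj]
        unfold R
        omega
    · refine block (k := n - a) (G0 n a m) (Finset.Ioc p2 p4) (Finset.Ioc p2 p3) ?_ ?_ ?_ ?_ c
        (c hub) h
      · intro u hu
        rw [Finset.mem_Ioc] at hu ⊢
        refine ⟨hu.1, hu.2.trans ?_⟩
        change 2 * n ≤ 3 * n
        omega
      · rw [Fin.card_Ioc]
        change 2 * n - (a + n) = n - a
        omega
      · rw [Fin.card_Ioc]
        change 3 * n - (a + n) = n - a + n
        omega
      · intro v hv u hu huv
        rw [Finset.mem_Ioc] at hv hu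
        have hv1 : a + n < v.val := hv.1
        have hv2 : v.val ≤ 2 * n := hv.2
        have hu1 : a + n < u.val := hu.1
        have hu2 : u.val ≤ 3 * n := hu.2
        have hne : u.val ≠ v.val := fun h => huv (Fin.ext h)
        rw [G0_adj]
        unfold R
        omega

/-- the pairs of the construction -/
def P (n a : ℕ) : Finset (ℕ × ℕ) :=
  ((Finset.Icc 1 (3 * n)).image (fun j => (0, j))) ∪
  ((Finset.range a).biUnion (fun t => (Finset.Ioc (a - t) (a + n)).image (fun j => (a - t, j)))) ∪
  ((Finset.range (n - a)).biUnion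
    (fun t => (Finset.Ioc (2 * n - t) (3 * n)).image (fun j => (2 * n - t, j))))

theorem card_P (n a : ℕ) (han : a ≤ n) :
    (P n a).card ≤ 3 * n + (∑ t ∈ Finset.range a, (n + t))
      + (∑ t ∈ Finset.range (n - a), (n + t)) := by
  unfold P
  refine (Finset.card_union_le _ _).trans ?_
  refine Nat.add_le_add ((Finset.card_union_le _ _).trans (Nat.add_le_add ?_ ?_)) ?_
  · refine Finset.card_image_le.trans ?_
    rw [Nat.card_Icc]
    omega
  · refine Finset.card_biUnion_le.trans ?_
    refine Finset.sum_le_sum (fun t ht => ?_)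
    refine Finset.card_image_le.trans ?_
    rw [Nat.card_Ioc]
    have := Finset.mem_range.1 ht
    omega
  · refine Finset.card_biUnion_le.trans ?_
    refine Finset.sum_le_sum (fun t ht => ?_)
    refine Finset.card_image_le.trans ?_
    rw [Nat.card_Ioc]
    have := Finset.mem_range.1 ht
    omega

theorem sum_eq (n k : ℕ) : 2 * (∑ t ∈ Finset.range k, (n + t)) + k = 2 * n * k + k * k := by
  induction k with
  | zero => simp
  | succ k ih =>
    rw [Finset.sum_range_succ]
    nlinarith [ih]

theorem mem_P {n a i j : ℕ} (han : a ≤ n) (hij : i < j) (h : R n a i j) : (i, j) ∈ P n a := by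
  unfold P
  rw [Finset.mem_union, Finset.mem_union]
  rcases h with ⟨h1, h2, h3⟩ | ⟨h1, h2, h3⟩ | ⟨h1, h2, h3⟩
  · left; left
    rw [Finset.mem_image]
    exact ⟨j, Finset.mem_Icc.2 ⟨h2, h3⟩, by rw [h1]⟩
  · left; right
    rw [Finset.mem_biUnion]
    refine ⟨a - i, Finset.mem_range.2 (by omega), ?_⟩
    rw [Finset.mem_image]
    have e : a - (a - i) = i := by omega
    exact ⟨j, Finset.mem_Ioc.2 ⟨by omega, h3⟩, by rw [e]⟩
  · right
    rw [Finset.mem_biUnion]
    refine ⟨2 * n - i, Finset.mem_range.2 (by omega), ?_⟩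
    rw [Finset.mem_image]
    have e : 2 * n - (2 * n - i) = i := by omega
    exact ⟨j, Finset.mem_Ioc.2 ⟨by omega, h3⟩, by rw [e]⟩

theorem edges_le {n a m : ℕ} (han : a ≤ n) (hm : 1 ≤ m) :
    (G0 n a m).edgeSet.ncard ≤ (P n a).card := by
  let f : ℕ → Fin m := fun i => if h : i < m then ⟨i, h⟩ else ⟨0, by omega⟩
  have hf : ∀ x : Fin m, f x.val = x := fun x => by simp [f]
  have hsub : (G0 n a m).edgeSet ⊆ (fun p : ℕ × ℕ => s(f p.1, f p.2)) '' (P n a : Set (ℕ × ℕ)) := by
    intro e he
    induction e using Sym2.ind with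
    | h x y =>
      rw [SimpleGraph.mem_edgeSet, G0_adj] at he
      rcases he with ⟨h1, h2⟩ | ⟨h1, h2⟩
      · exact ⟨(x.val, y.val), mem_P han h1 h2, by simp only [hf]⟩
      · exact ⟨(y.val, x.val), mem_P han h1 h2, by simp only [hf]; exact Sym2.eq_swap⟩
  refine (Set.ncard_le_ncard hsub (Set.Finite.image _ (Finset.finite_toSet _))).trans ?_
  refine (Set.ncard_image_le (Finset.finite_toSet _)).trans ?_
  rw [Set.ncard_coe_finset]

/-- the number of edges in the question -/
theorem e_val (n : ℕ) (hn : 1 ≤ n) :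
    2 * ((2 * n + 1).choose 2 - n.choose 2 - 1) + 2 = 3 * n * n + 3 * n := by
  have h1 : 2 * (2 * n + 1).choose 2 = (2 * n + 1) * (2 * n) := by
    rw [Nat.choose_two_right]
    have : 2 ∣ (2 * n + 1) * (2 * n + 1 - 1) := by
      have : 2 ∣ 2 * n + 1 - 1 := ⟨n, by omega⟩
      exact this.mul_left _
    rw [Nat.mul_div_cancel' this]
    rfl
  have h2 : 2 * n.choose 2 + n = n * n := by
    rw [Nat.choose_two_right]
    have : 2 ∣ n * (n - 1) := by
      rw [mul_comm]
      have := Nat.even_mul_pred_self n
      rw [mul_comm] at this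
      exact this.two_dvd
    rw [Nat.mul_div_cancel' this]
    obtain ⟨k, rfl⟩ : ∃ k, n = k + 1 := ⟨n - 1, by omega⟩
    simp only [Nat.add_sub_cancel]
    ring
  have h3 : n.choose 2 + 1 ≤ (2 * n + 1).choose 2 := by nlinarith
  have h4 : (2 * n + 1) * (2 * n) = 4 * (n * n) + 2 * n := by ring
  have h5 : 3 * n * n = 3 * (n * n) := by ring
  omega

/-- **For every `n ≥ 5` and every `m ≥ 3 n + 1` there is a graph with `m` vertices and exactly
`(2 n + 1).choose 2 - n.choose 2 - 1` edges which is not the union of a bipartite graph and a graph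
of maximum degree at most `n - 1`; equivalently (second statement) every partition of its vertices
into two parts has a vertex with at least `n` neighbours in its own part.** -/
theorem result : ∀ n m : ℕ, 5 ≤ n → 3 * n + 1 ≤ m → ∃ G : SimpleGraph (Fin m),
    G.edgeSet.ncard = (2 * n + 1).choose 2 - n.choose 2 - 1 ∧ ¬ HasP n G ∧
    ∀ c : Fin m → Fin 2, ∃ v, n ≤ ({u | G.Adj v u ∧ c u = c v} : Set (Fin m)).ncard := by
  intro n m hn hm
  classical
  have hev := e_val n (by omega)
  set E := (2 * n + 1).choose 2 - n.choose 2 - 1 with hE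
  -- the number of edges of the construction
  obtain ⟨a, b, hab, hb1, hb2⟩ : ∃ a b : ℕ, a + b = n ∧ a ≤ b ∧ b ≤ a + 1 :=
    ⟨n / 2, n - n / 2, by omega, by omega, by omega⟩
  have hc := card_P n a (by omega)
  have hs1 := sum_eq n a
  have hs2 := sum_eq n (n - a)
  have hba : n - a = b := by omega
  rw [hba] at hc hs2
  have hle : (G0 n a m).edgeSet.ncard ≤ E := by
    refine (edges_le (by omega) (by omega)).trans (hc.trans ?_)
    have hnn : n = a + b := hab.symm
    have hb : b = a ∨ b = a + 1 := by omega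
    have ha2 : 2 ≤ a := by omega
    rcases hb with hb | hb
    · subst hb
      have hn2 : n = 2 * b := by omega
      subst hn2
      have hb3 : 3 ≤ b := by omega
      nlinarith
    · subst hb
      have hn2 : n = 2 * a + 1 := by omega
      subst hn2
      nlinarith
  -- all pairs
  have htop : E ≤ (⊤ : SimpleGraph (Fin m)).edgeFinset.card := by
    rw [SimpleGraph.card_edgeFinset_top_eq_card_choose_two, Fintype.card_fin]
    have h1 : (2 * n + 1).choose 2 ≤ m.choose 2 := Nat.choose_le_choose 2 (by omega)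
    omega
  have hlow : (G0 n a m).edgeFinset.card ≤ E := by
    have h := hle
    rw [Set.ncard_eq_toFinset_card'] at h
    exact h
  obtain ⟨u, hu1, hu2, hu3⟩ := Finset.exists_subsuperset_card_eq
    (SimpleGraph.edgeFinset_mono (le_top : G0 n a m ≤ ⊤)) hlow htop
  let G : SimpleGraph (Fin m) := SimpleGraph.fromEdgeSet (u : Set (Sym2 (Fin m)))
  have hGe : G.edgeSet = (u : Set (Sym2 (Fin m))) := by
    simp only [G, SimpleGraph.edgeSet_fromEdgeSet]
    ext e
    constructor
    · exact fun h => h.1
    · intro h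
      refine ⟨h, ?_⟩
      have := hu2 h
      rw [SimpleGraph.mem_edgeFinset] at this
      exact SimpleGraph.not_isDiag_of_mem_edgeSet _ this
  have hG0G : G0 n a m ≤ G := by
    rw [← SimpleGraph.edgeSet_subset_edgeSet, hGe]
    intro e he
    exact hu1 (SimpleGraph.mem_edgeFinset.2 he)
  have hbad : Bad n G := (bad_G0 (by omega) (by omega) hm).mono hG0G
  refine ⟨G, ?_, not_hasP (by omega) hbad, hbad⟩
  rw [hGe, Set.ncard_coe_finset, hu3]

end Pool.Agent.Run7.h62.Kept.TwoBlocks
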